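import Pool.Agent.Q97.BS.Qzt

/-!
# Moments of zeta of every real order from arithmetic progressions

Let `M = ∫ |ζ(1/2 + it)|^β exp(-((t - T)/U)²) dt` and let `D` be the corresponding Riemann sum over an
arbitrary arithmetic progression of step `2πδ / log T`. Uniformly in the progression and in the width
`1 ≤ U ≤ T / log T` of the window:

* for all real `β > 0`, `δ > 0`: `D ≤ C M`;
* for all real `β > 0` and `0 < δ < 1`: `M ≤ C D`;
* for all real `β ≥ 1`, `δ > 0`: `|D - M| ≤ (πβδ/2 + ε) M`.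

After a rotation the zeta function, multiplied by `s - 1` and by a Gaussian window, is in the scale
`2π / log T` a function whose frequencies lie in `[-1/2 - ε, 1/2 + ε]`, up to an error `O(T^{-B})`; so
the inequalities of Plancherel-Pólya type and Bernstein's inequality (in the interpolation form of
M. Riesz) apply.
-/

set_option autoImplicit false

open MeasureTheory Filter

namespace Pool.Agent.Results.MP_91b7ff_nt.DiscreteMoments

noncomputable section

/-- `|ζ(1/2 + it)|^β exp(-((t - T)/U)²)` -/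
def density (β T U t : ℝ) : ℝ :=
  ‖riemannZeta (1 / 2 + t * Complex.I)‖ ^ β * Real.exp (-((t - T) / U) ^ 2)

/-- the moment of order `β` in the window of width `U` at height `T` -/
def moment (β T U : ℝ) : ℝ := ∫ t : ℝ, density β T U t

/-- its Riemann sum over the arithmetic progression `θ + n h`, `n ∈ ℤ` -/
def discrete (β T U h θ : ℝ) : ℝ := h * ∑' n : ℤ, density β T U (θ + n * h)

/-- the step: `δ` times the mean distance `2π / log T` of the zeros at height `T` -/
def step (δ T : ℝ) : ℝ := 2 * Real.pi * δ / Real.log T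

theorem density_eq : density = Q97.BS.aR := by
  funext β T U t
  unfold density Q97.BS.aR Q97.BS.pt Q97.MM.wt
  norm_num

theorem result :
    (∀ β δ : ℝ, 0 < β → 0 < δ → ∃ C : ℝ, ∀ᶠ T : ℝ in atTop, ∀ U : ℝ, 1 ≤ U → U ≤ T / Real.log T →
      ∀ θ : ℝ, Summable (fun n : ℤ => density β T U (θ + n * step δ T)) ∧
        discrete β T U (step δ T) θ ≤ C * moment β T U) ∧
    (∀ β δ : ℝ, 0 < β → 0 < δ → δ < 1 → ∃ C : ℝ, ∀ᶠ T : ℝ in atTop, ∀ U : ℝ, 1 ≤ U →
      U ≤ T / Real.log T → ∀ θ : ℝ, moment β T U ≤ C * discrete β T U (step δ T) θ) ∧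
    (∀ β δ ε : ℝ, 1 ≤ β → 0 < δ → 0 < ε → ∀ᶠ T : ℝ in atTop, ∀ U : ℝ, 1 ≤ U →
      U ≤ T / Real.log T → ∀ θ : ℝ,
        |discrete β T U (step δ T) θ - moment β T U| ≤
          (Real.pi * β * δ / 2 + ε) * moment β T U) := by
  refine ⟨fun β δ hβ hδ => ?_, fun β δ hβ hδ hδ1 => ?_, fun β δ ε hβ hδ hε => ?_⟩
  · obtain ⟨C, -, h⟩ := Q97.BS.sam_upper hβ hδ
    refine ⟨C, ?_⟩
    filter_upwards [h, eventually_ge_atTop 3] with T h hT U h1 h2 θ
    unfold discrete moment step
    rw [density_eq]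
    exact h U ⟨hT, h1, h2⟩ θ
  · obtain ⟨C, -, h⟩ := Q97.BS.sam_lower hβ hδ hδ1
    refine ⟨C, ?_⟩
    filter_upwards [h, eventually_ge_atTop 3] with T h hT U h1 h2 θ
    unfold discrete moment step
    rw [density_eq]
    exact h U ⟨hT, h1, h2⟩ θ
  · filter_upwards [Q97.BS.quad_zeta hβ hδ hε, eventually_ge_atTop 3] with T h hT U h1 h2 θ
    unfold discrete moment step
    rw [density_eq]
    exact h U ⟨hT, h1, h2⟩ θ

end

end Pool.Agent.Results.MP_91b7ff_nt.DiscreteMoments
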