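import Pool.Agent.Q255.FM.Num2
import Pool.Agent.Q255.FM.Dy

set_option autoImplicit false

/-!
MP_91b7ff_nt, exponent `k = 1`: unconditional two-sided bounds with explicit constants for
`M_1(T) = ∫_0^T |ζ(1/2+it)| dt`, and for its increments `M_1(T+U) - M_1(T)` on short intervals.
-/

namespace Pool.Agent.Results.MP_91b7ff_nt.FirstMoment

open Filter MeasureTheory

/-- `M_k(T) = ∫_0^T |ζ(1/2+it)|^k dt` -/
noncomputable def M (k : ℕ) (T : ℝ) : ℝ :=
  ∫ t in (0 : ℝ)..T, ‖riemannZeta (1 / 2 + t * Complex.I)‖ ^ k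

/-- `A = ∏_p (1 - 1/p)^{1/4} ∑_m (binom(2m,m)/4^m)² p^{-m}`, the arithmetic factor for `k = 1` -/
noncomputable def A : ℝ :=
  ∏' p : Nat.Primes, ((1 - 1 / (p : ℝ)) ^ ((1 : ℝ) / 4) *
    ∑' m : ℕ, ((Nat.centralBinom m : ℝ) / 4 ^ m) ^ 2 * (1 / (p : ℝ)) ^ m)

lemma lc_half (m : ℕ) : Pool.Agent.H306R2.lc (1 / 2) m = (Nat.centralBinom m : ℝ) / 4 ^ m := by
  unfold Pool.Agent.H306R2.lc
  induction m with
  | zero => simp
  | succ m ih =>
    rw [Finset.prod_range_succ, ih]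
    have h := Nat.succ_mul_centralBinom_succ m
    have h2 : ((m : ℝ) + 1) * (Nat.centralBinom (m + 1) : ℝ) =
        2 * (2 * m + 1) * (Nat.centralBinom m : ℝ) := by exact_mod_cast h
    have h3 : (0 : ℝ) < (m : ℝ) + 1 := by positivity
    have h4 : (Nat.centralBinom (m + 1) : ℝ) =
        2 * (2 * m + 1) * (Nat.centralBinom m : ℝ) / ((m : ℝ) + 1) := by
      rw [← h2]; field_simp
    rw [h4, pow_succ]
    field_simp
    ring

lemma aF_half : Pool.Agent.H306R2.aF (1 / ((2 : ℕ) : ℝ)) = A := by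
  unfold Pool.Agent.H306R2.aF A
  have e : (1 / ((2 : ℕ) : ℝ)) = 1 / 2 := by norm_num
  rw [e]
  refine tprod_congr fun p => ?_
  congr 1
  · norm_num
  · refine tsum_congr fun m => ?_
    rw [lc_half]

lemma AA_two : Pool.Agent.Q255.FM.AA 2 = A / Real.Gamma (5 / 4) := by
  unfold Pool.Agent.Q255.FM.AA
  rw [aF_half]
  congr 2
  norm_num

lemma A_pos : 0 < A := by
  rw [← aF_half]
  exact Pool.Agent.H306R2.aF_pos (by norm_num)

lemma M_eq (T : ℝ) : M 1 T = Pool.Agent.Q255.FM.MM 2 T := by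
  unfold M Pool.Agent.Q255.FM.MM
  have e : (2 / ((2 : ℕ) : ℝ)) = 1 := by norm_num
  rw [e]
  simp only [Real.rpow_one, pow_one]

theorem M_sub (T U : ℝ) : M 1 (T + U) - M 1 T =
    ∫ t in T..(T + U), ‖riemannZeta (1 / 2 + t * Complex.I)‖ ^ (2 / ((2 : ℕ) : ℝ)) := by
  have hc := Pool.Agent.Q255.FM.zeta_half_continuous (2 / ((2 : ℕ) : ℝ)) (by positivity)
  rw [M_eq, M_eq]
  unfold Pool.Agent.Q255.FM.MM
  rw [intervalIntegral.integral_interval_sub_left (hc.intervalIntegrable _ _)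
    (hc.intervalIntegrable _ _)]

lemma expo : (1 / ((2 : ℕ) : ℝ)) ^ 2 = 1 / 4 := by norm_num

open Pool.Agent.Q255.FM in
theorem result :
    0 < A ∧
    -- two-sided bounds for `M_1(T)`
    (∀ᶠ T : ℝ in atTop,
      0.585 * (A / Real.Gamma (5 / 4)) * (T * Real.log T ^ ((1 : ℝ) / 4)) ≤ M 1 T ∧
      M 1 T ≤ 2.14 * (A / Real.Gamma (5 / 4)) * (T * Real.log T ^ ((1 : ℝ) / 4))) ∧
    -- lower bound on all intervals of length between a power of `log T` and `T`
    (∃ B : ℝ, 0 < B ∧ ∀ᶠ T : ℝ in atTop, ∀ U : ℝ, Real.log T ^ B ≤ U → U ≤ T →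
      0.585 * (A / Real.Gamma (5 / 4)) * (U * Real.log U ^ ((1 : ℝ) / 4)) ≤ M 1 (T + U) - M 1 T) ∧
    -- upper bound on intervals of length at least `T^{9/10}`
    (∀ᶠ T : ℝ in atTop, ∀ U : ℝ, T ^ ((9 : ℝ) / 10) ≤ U → U ≤ T →
      M 1 (T + U) - M 1 T ≤ 2.44 * (A / Real.Gamma (5 / 4)) * (U * Real.log U ^ ((1 : ℝ) / 4))) ∧
    -- upper bound on intervals of length at least `T^β`, any `β > 1/2`
    (∀ β : ℝ, 1 / 2 < β → ∃ C : ℝ, 0 < C ∧ ∀ᶠ T : ℝ in atTop, ∀ U : ℝ, T ^ β ≤ U → U ≤ T →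
      M 1 (T + U) - M 1 T ≤ C * (U * Real.log U ^ ((1 : ℝ) / 4))) := by
  have hlow := moments_lower (n := 2) le_rfl (x0 := 0.5851) (a := 16 / 3) (b := 8) (y := 0.585)
    (by norm_num) (by norm_num) (by norm_num) hcond2 (by norm_num)
  have hup := moments_upper (n := 2) le_rfl (β' := 2001 / 2000) (c := 6 / 5) (d := 11 / 5)
    (C := 2.14) (by norm_num) (by norm_num) (by norm_num) (by norm_num) hC2
  have hwl := win_lower (n := 2) le_rfl (x0 := 0.5851) (a := 16 / 3) (b := 8) (y := 0.585)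
    (by norm_num) (by norm_num) (by norm_num) hcond2 (by norm_num)
  have hwu := win_upper (n := 2) le_rfl (β := 9 / 10) (β' := 1389 / 1250) (c := 11 / 10)
    (d := 11 / 5) (C := 2.44) (by norm_num) (by norm_num) (by norm_num) (by norm_num)
    (by norm_num) hC9
  rw [AA_two, expo] at hlow hup hwl hwu
  refine ⟨A_pos, ?_, ?_, ?_, ?_⟩
  · filter_upwards [hlow, hup] with T h1 h2
    rw [M_eq]
    exact ⟨h1, h2⟩
  · obtain ⟨B, hB, h⟩ := hwl
    refine ⟨B, hB, ?_⟩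
    filter_upwards [h] with T hT U hU hUT
    rw [M_sub]
    exact hT U hU hUT
  · filter_upwards [hwu] with T hT U hU hUT
    rw [M_sub]
    exact hT U hU hUT
  · intro β hβ
    rcases lt_or_ge β 2 with hβ2 | hβ2
    swap
    · -- empty range
      refine ⟨1, one_pos, ?_⟩
      filter_upwards [eventually_gt_atTop 1] with T hT U hU hUT
      exfalso
      have h1 : T ^ (2 : ℝ) ≤ T ^ β := Real.rpow_le_rpow_of_exponent_le hT.le hβ2
      rw [Real.rpow_two] at h1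
      nlinarith
    have hβ0 : 0 < β := by linarith
    obtain ⟨β', h1, h2⟩ := exists_between (show 1 / β < 2 by
      rw [div_lt_iff₀ hβ0]; linarith)
    have hββ : 1 < β' * β := by rwa [div_lt_iff₀ hβ0] at h1
    set C := |Real.exp (1 / ((2 : ℕ) : ℝ) * 1 * β') * jc 2 β' 1 1| + 1 with hC
    have hCC : Real.exp (1 / ((2 : ℕ) : ℝ) * 1 * β') * jc 2 β' 1 1 < C := by
      have := le_abs_self (Real.exp (1 / ((2 : ℕ) : ℝ) * 1 * β') * jc 2 β' 1 1)
      linarith
    have hC0 : 0 < C := by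
      have := abs_nonneg (Real.exp (1 / ((2 : ℕ) : ℝ) * 1 * β') * jc 2 β' 1 1)
      linarith
    have hG : 0 < Real.Gamma (5 / 4) := Real.Gamma_pos_of_pos (by norm_num)
    have hA := A_pos
    have h := win_upper (n := 2) le_rfl (β := β) (β' := β') (c := 1) (d := 1) (C := C) hβ0 hββ h2
      one_pos one_pos hCC
    rw [AA_two, expo] at h
    refine ⟨C * (A / Real.Gamma (5 / 4)), by positivity, ?_⟩
    filter_upwards [h] with T hT U hU hUT
    rw [M_sub]
    exact hT U hU hUT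

end Pool.Agent.Results.MP_91b7ff_nt.FirstMoment
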