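import Pool.Agent.Q80.SP.Fin

/-!
The `2k`-th moment of the Riemann zeta function is twice the mean square of one smoothed Dirichlet
polynomial of length `T ^ (k/2 + δ)`.
-/

set_option autoImplicit false

open MeasureTheory Filter Topology Set
open scoped ContDiff

namespace Pool.Agent.Results.MP_91b7ff_nt.MeanSquareSplitting

/-- The number of `k`-tuples of positive integers with product `n`. -/
def d (k n : ℕ) : ℕ := (Nat.finMulAntidiag k n).card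

/-- The Dirichlet polynomial `∑ d_k(n) φ(log n / log T) n^(-1/2-it)`. -/
noncomputable def D (k : ℕ) (φ : ℝ → ℂ) (T t : ℝ) : ℂ :=
  ∑' n : ℕ, (d k n : ℂ) * φ (Real.log n / Real.log T) * (n : ℂ) ^ (-(1 / 2 + t * Complex.I))

/-- Its mean square in the Gaussian window with centre `T` and width `U`. -/
noncomputable def S (k : ℕ) (φ : ℝ → ℂ) (T U : ℝ) : ℝ :=
  ∫ t : ℝ, ‖D k φ T t‖ ^ 2 * Real.exp (-((t - T) / U) ^ 2)

/-- The `2k`-th moment of `ζ` on the critical line in the same window. -/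
noncomputable def M (k : ℕ) (T U : ℝ) : ℝ :=
  ∫ t : ℝ, ‖riemannZeta (1 / 2 + t * Complex.I)‖ ^ (2 * k) * Real.exp (-((t - T) / U) ^ 2)

theorem M_eq (k : ℕ) (T U : ℝ) : M k T U = Q97.MM.M0 k T U := by
  unfold M Q97.MM.M0 Q97.MM.JJ Q97.MM.wt
  norm_num

theorem S_eq (k : ℕ) (φ : ℝ → ℂ) (T U : ℝ) : S k φ T U = Q80.SP.SS k φ T U := rfl

/-- Let `k ≥ 0`, `ε > 0`, `η > 0`; the statements are uniform over the windows
`T ^ ε ≤ U ≤ T / log T`.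
1. If the smooth compactly supported weight `φ` satisfies `a ≤ |φ(u)|² + |φ(k - u)|² ≤ b` on
`[0, k]`, then twice the mean square of the Dirichlet polynomial lies between `(a - η) M` and
`(b + η) M`; with `a = b = 1` this is an asymptotic formula.
2. Comparison: if `|φ(u)|² + |φ(k - u)|² ≤ |χ(u)|² + |χ(k - u)|²` on `[0, k]`, then
`S φ ≤ S χ + η M`; in particular `φ` and its reflection `φ(k - ·)` give the same mean square up to
`η M`, however long the polynomials are.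
3. For every `δ > 0` there is a weight with values in `[0, 1]` that vanishes beyond `k/2 + δ`, so
that the polynomial has length at most `T ^ (k/2 + δ)`, for which the moment is asymptotically
twice the mean square. -/
theorem result (k : ℕ) :
    (∀ φ : ℝ → ℂ, ContDiff ℝ ∞ φ → HasCompactSupport φ → ∀ a b : ℝ,
      (∀ u ∈ Icc (0 : ℝ) k, a ≤ ‖φ u‖ ^ 2 + ‖φ (k - u)‖ ^ 2 ∧
        ‖φ u‖ ^ 2 + ‖φ (k - u)‖ ^ 2 ≤ b) →
      ∀ ε η : ℝ, 0 < ε → 0 < η → ∃ T₀ : ℝ, ∀ T : ℝ, T₀ ≤ T → ∀ U : ℝ, T ^ ε ≤ U →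
        U ≤ T / Real.log T →
          (a - η) * M k T U ≤ 2 * S k φ T U ∧ 2 * S k φ T U ≤ (b + η) * M k T U) ∧
    (∀ φ χ : ℝ → ℂ, ContDiff ℝ ∞ φ → HasCompactSupport φ → ContDiff ℝ ∞ χ →
      HasCompactSupport χ →
      (∀ u ∈ Icc (0 : ℝ) k, ‖φ u‖ ^ 2 + ‖φ (k - u)‖ ^ 2 ≤ ‖χ u‖ ^ 2 + ‖χ (k - u)‖ ^ 2) →
      ∀ ε η : ℝ, 0 < ε → 0 < η → ∃ T₀ : ℝ, ∀ T : ℝ, T₀ ≤ T → ∀ U : ℝ, T ^ ε ≤ U →
        U ≤ T / Real.log T → S k φ T U ≤ S k χ T U + η * M k T U) ∧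
    (∀ δ : ℝ, 0 < δ → ∃ φ : ℝ → ℝ, ContDiff ℝ ∞ φ ∧ HasCompactSupport φ ∧
      (∀ u, 0 ≤ φ u ∧ φ u ≤ 1) ∧ (∀ u, k / 2 + δ ≤ u → φ u = 0) ∧
      ∀ ε η : ℝ, 0 < ε → 0 < η → ∃ T₀ : ℝ, ∀ T : ℝ, T₀ ≤ T → ∀ U : ℝ, T ^ ε ≤ U →
        U ≤ T / Real.log T →
          (1 - η) * M k T U ≤ 2 * S k (fun u => (φ u : ℂ)) T U ∧
            2 * S k (fun u => (φ u : ℂ)) T U ≤ (1 + η) * M k T U) := by
  simp only [M_eq, S_eq]
  refine ⟨fun φ h1 h2 a b hab ε η hε hη => Q80.SP.two_sided k ⟨h1, h2⟩ hab hε hη,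
    fun φ χ h1 h2 h3 h4 hle ε η hε hη => Q80.SP.comparison k ⟨h1, h2⟩ ⟨h3, h4⟩ hle hε hη,
    fun δ hδ => ?_⟩
  obtain ⟨p1, p2, p3, p4, p5⟩ := Q80.SP.spl_props k hδ
  have hcs : HasCompactSupport (Q80.SP.spl k δ) := by
    refine HasCompactSupport.intro (isCompact_Icc (a := -1) (b := (k : ℝ) / 2 + δ)) fun u hu => ?_
    rw [mem_Icc, not_and_or, not_le, not_le] at hu
    rcases hu with hu | hu
    · exact p3 u hu.le
    · exact p4 u hu.le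
  refine ⟨Q80.SP.spl k δ, p1, hcs, p2, p4, fun ε η hε hη => ?_⟩
  have hT : Q80.SP.Tst (fun u => (Q80.SP.spl k δ u : ℂ)) := by
    refine ⟨Complex.ofRealCLM.contDiff.comp p1, ?_⟩
    exact hcs.comp_left (g := fun x : ℝ => (x : ℂ)) Complex.ofReal_zero
  refine Q80.SP.two_sided k hT (fun u hu => ?_) hε hη
  have h5 := p5 u hu
  simp only [Complex.norm_real, Real.norm_eq_abs, sq_abs]
  rw [h5]
  exact ⟨le_rfl, le_rfl⟩

end Pool.Agent.Results.MP_91b7ff_nt.MeanSquareSplitting
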