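import Pool.Agent.Q97.MM.Fin3

/-!
Correlations of powers of the Riemann zeta function at distances `h / log T` on the critical line,
in Gaussian windows of any width between `1` and `T / log T`.
-/

set_option autoImplicit false

open MeasureTheory Filter Topology Set ComplexConjugate

namespace Pool.Agent.Results.MP_91b7ff_nt.ShiftedMoments

/-- The `2k`-th moment of `ζ` on the critical line in the Gaussian window with centre `T` and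
width `U`. -/
noncomputable def M (k : ℕ) (T U : ℝ) : ℝ :=
  ∫ t : ℝ, ‖riemannZeta (1 / 2 + t * Complex.I)‖ ^ (2 * k) * Real.exp (-((t - T) / U) ^ 2)

/-- The shifted moment: the correlation of `ζ ^ k` with itself at the distance `h / log T`. -/
noncomputable def C (k : ℕ) (T U h : ℝ) : ℂ :=
  ∫ t : ℝ, riemannZeta (1 / 2 + ((t + h / Real.log T : ℝ) : ℂ) * Complex.I) ^ k *
    conj (riemannZeta (1 / 2 + t * Complex.I) ^ k) * (Real.exp (-((t - T) / U) ^ 2) : ℂ)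

/-- The `2k`-th moment at the distance `a / log T` from the critical line. -/
noncomputable def J (k : ℕ) (T U a : ℝ) : ℝ :=
  ∫ t : ℝ, ‖riemannZeta (((1 / 2 + a / Real.log T : ℝ) : ℂ) + t * Complex.I)‖ ^ (2 * k) *
    Real.exp (-((t - T) / U) ^ 2)

theorem M_eq (k : ℕ) (T U : ℝ) : M k T U = Q97.MM.M0 k T U := by
  unfold M Q97.MM.M0 Q97.MM.JJ Q97.MM.wt
  norm_num

theorem C_eq (k : ℕ) (T U h : ℝ) : C k T U h = Q97.MM.CZ k T U (h / Real.log T) := by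
  unfold C Q97.MM.CZ Q97.MM.wt Q97.MM.pt
  norm_num

theorem result :
    (∀ (k : ℕ) (h ε : ℝ), 0 < ε → ∃ T₀ : ℝ, ∀ T : ℝ, T₀ ≤ T → ∀ U : ℝ, 1 ≤ U →
      U ≤ T / Real.log T → 0 < M k T U ∧
        |(Complex.exp (((k * h / 2 : ℝ) : ℂ) * Complex.I) * (C k T U h / M k T U)).im| ≤ ε ∧
        (|k * h| ≤ 2 * Real.pi → Real.cos (k * h / 2) - ε ≤
          (Complex.exp (((k * h / 2 : ℝ) : ℂ) * Complex.I) * (C k T U h / M k T U)).re)) ∧
    (∀ (k : ℕ) (T U : ℕ → ℝ), Tendsto T atTop atTop →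
      (∀ j, 1 ≤ U j ∧ U j ≤ T j / Real.log (T j)) →
      ∃ φ : ℕ → ℕ, StrictMono φ ∧ ∃ ν : Measure ℝ, IsProbabilityMeasure ν ∧
        (∀ᵐ u ∂ν, u ∈ Icc 0 (2 * k : ℝ)) ∧ ν.map (fun u => 2 * (k : ℝ) - u) = ν ∧
        (∀ h : ℝ, Tendsto (fun j => C k (T (φ j)) (U (φ j)) h / (M k (T (φ j)) (U (φ j)) : ℂ)) atTop
          (𝓝 (∫ u, Complex.exp (-((h * u / 2 : ℝ) : ℂ) * Complex.I) ∂ν))) ∧
        ∀ a : ℝ, Tendsto (fun j => J k (T (φ j)) (U (φ j)) a / J k (T (φ j)) (U (φ j)) 0) atTop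
          (𝓝 (∫ u, Real.exp (-(a * u)) ∂ν))) ∧
    (∀ (k : ℕ) (S : Set ℝ), ((∃ x : ℝ, AccPt x (𝓟 S)) ∨
        ∃ κ : ℝ, (k : ℝ) < κ ∧ ∀ m : ℕ, 2 * Real.pi * ((m : ℝ) + 1) / κ ∈ S) →
      ∀ T U N : ℕ → ℝ, Tendsto T atTop atTop →
      (∀ j, 1 ≤ U j ∧ U j ≤ T j / Real.log (T j)) → (∀ j, 0 < N j) →
      (∀ h ∈ S, ∃ l : ℂ, Tendsto (fun j => C k (T j) (U j) h / (N j : ℂ)) atTop (𝓝 l)) →
      (∃ l : ℝ, Tendsto (fun j => M k (T j) (U j) / N j) atTop (𝓝 l)) ∧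
        ∀ h : ℝ, ∃ l : ℂ, Tendsto (fun j => C k (T j) (U j) h / (N j : ℂ)) atTop (𝓝 l)) := by
  simp only [M_eq, C_eq]
  refine ⟨fun k h ε hε => Q97.MM.bounds2 k h hε, fun k T U hT hU => ?_,
    fun k S hS T U N hT hU hN hl => ?_⟩
  · obtain ⟨φ, hφ, ν, hν, h2, h3, h4, h5, -⟩ := Q97.MM.core2 k hT hU
    exact ⟨φ, hφ, ν, hν, h2, h3, h4, h5⟩
  · rcases hS with ⟨x, hx⟩ | ⟨κ, hκ, hS⟩
    · exact Q97.MM.transfer2 k (Q97.MM.det_acc k hx) hT hU hN hl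
    · refine Q97.MM.transfer2 k (Q97.MM.det_arith k hκ) hT hU hN (fun h hh => ?_)
      obtain ⟨m, rfl⟩ := hh
      exact hl _ (hS m)

end Pool.Agent.Results.MP_91b7ff_nt.ShiftedMoments
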